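import Pool.Agent.helper87.TR.Spec

namespace Pool.Agent.helper87.TR

open Polynomial Finset Module FP97

theorem C2_deg {P : ℂ[X]} {d : ℕ} (hP : P ∈ degreeLT ℂ d) (h0 : P ≠ 0) : P.natDegree < d := by
  rw [mem_degreeLT, degree_eq_natDegree h0] at hP
  exact_mod_cast hP

theorem C2_of_deg {P : ℂ[X]} {d : ℕ} (h : P.natDegree < d) : P ∈ degreeLT ℂ d := by
  rw [mem_degreeLT]
  exact lt_of_le_of_lt degree_le_natDegree (by exact_mod_cast h)

theorem C2_dvd {ι : Type} (a : ι → ℂ) (s : Finset ι) (ha : Set.InjOn a s) (t : ι → ℕ) (G : ℂ[X]) (hG : G ≠ 0)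
    (h : ∀ k ∈ s, (X - C (a k)) ^ (t k) ∣ G) : ∑ k ∈ s, t k ≤ G.natDegree := by
  have h1 := (prod_pow_dvd s a ha t G).2 h
  rw [← natDegree_prod_pow s a t]
  exact natDegree_le_of_dvd h1 hG

theorem C2_mul {P Q : ℂ[X]} {m n e : ℕ} (hP : P ∈ degreeLT ℂ (m + 1)) (hQ : Q ∈ degreeLT ℂ (n + 1 - e)) :
    P * Q ∈ degreeLT ℂ (m + n + 1 - e) := by
  by_cases h : P * Q = 0
  · rw [h]; exact Submodule.zero_mem _
  · have hP0 : P ≠ 0 := fun h1 => h (by rw [h1, zero_mul])
    have hQ0 : Q ≠ 0 := fun h1 => h (by rw [h1, mul_zero])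
    have h1 := C2_deg hP hP0
    have h2 := C2_deg hQ hQ0
    apply C2_of_deg
    rw [natDegree_mul hP0 hQ0]
    omega

theorem C2_ev {a : ℂ} {P : ℂ[X]} (h : P.eval a = 0) : ∃ Q, P = (X - C a) * Q := dvd_iff_isRoot.2 h

theorem C2 (hT2 : T2_stmt) : C2_stmt := by
  intro ι a c K δ ha hc F g hF h01 h12
  obtain ⟨hT, -⟩ := hT2 ι a c K δ ha F g hF
  have hmem := hF.mem
  have hdet := hF.det
  have hsum := hF.sum
  have hev : ∀ i, ∀ k ∈ K, ∃ s : ℂ, ∀ q, (F i q).eval (a k) = s * c k q := fun i => (hmem i).2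
  have hdg : ∀ (i q : Fin 3), F i q ∈ degreeLT ℂ (g i + 1 - ((q : Fin 3) : ℕ) * δ) := fun i => (hmem i).1
  have hD3 := Matrix.det_fin_three (Matrix.of F)
  simp only [Matrix.of_apply] at hD3
  have hHK : (K.filter fun k => c k 2 = 0) ⊆ K := filter_subset _ _
  refine ⟨?_, ?_⟩
  · -- some entry of the third column is not zero
    have hex : ∃ i, F i 2 ≠ 0 := by
      by_contra hcon
      push Not at hcon
      apply hdet
      rw [hD3, hcon 0, hcon 1, hcon 2]
      ring
    obtain ⟨i, hi⟩ := hex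
    have h1 := C2_deg (hdg i 2) hi
    have h2 : ∑ k ∈ K.filter (fun k => c k 2 = 0), 1 ≤ (F i 2).natDegree := by
      refine C2_dvd a _ (ha.mono (by exact_mod_cast hHK)) (fun _ => 1) (F i 2) hi ?_
      intro k hk
      rw [mem_filter] at hk
      obtain ⟨s, hs⟩ := hev i k hk.1
      rw [pow_one]
      exact dvd_iff_isRoot.2 (by rw [IsRoot, hs, hk.2, mul_zero])
    rw [← card_eq_sum_ones] at h2
    have h3 : ((2 : Fin 3) : ℕ) = 2 := rfl
    rw [h3] at h1
    have h4 : g i ≤ g 2 := by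
      fin_cases i
      · exact h01.trans h12
      · exact h12
      · exact le_rfl
    omega
  · intro hlt
    -- the polynomial vanishing on K
    set τ : ℂ[X] := ∏ k ∈ K, (X - C (a k)) with hτ
    have hτm : τ.Monic := monic_prod_of_monic _ _ fun _ _ => monic_X_sub_C _
    have hτ0 : τ ≠ 0 := hτm.ne_zero
    have hτd : τ.natDegree = K.card := by
      rw [hτ, natDegree_prod_of_monic _ _ fun _ _ => monic_X_sub_C _]
      simp
    have hτe : ∀ k ∈ K, τ.eval (a k) = 0 := by
      intro k hk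
      rw [hτ, eval_prod]
      exact prod_eq_zero hk (by simp)
    have hz0 : (![τ, 0, 0] : Fin 3 → ℂ[X]) ∈ NN a c K δ (K.card + 1) := by
      refine ⟨?_, ?_⟩
      · intro q
        fin_cases q
        · exact C2_of_deg (by
            show τ.natDegree < K.card + 1 - 0 * δ
            rw [hτd]; omega)
        · exact Submodule.zero_mem _
        · exact Submodule.zero_mem _
      · intro k hk
        refine ⟨0, fun q => ?_⟩
        fin_cases q
        · show τ.eval (a k) = _
          rw [hτe k hk, zero_mul]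
        · show (0 : ℂ[X]).eval (a k) = _
          rw [eval_zero, zero_mul]
        · show (0 : ℂ[X]).eval (a k) = _
          rw [eval_zero, zero_mul]
    have hz1 : (![0, τ, 0] : Fin 3 → ℂ[X]) ∈ NN a c K δ (K.card + δ + 1) := by
      refine ⟨?_, ?_⟩
      · intro q
        fin_cases q
        · exact Submodule.zero_mem _
        · exact C2_of_deg (by
            show τ.natDegree < K.card + δ + 1 - 1 * δ
            rw [hτd]; omega)
        · exact Submodule.zero_mem _
      · intro k hk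
        refine ⟨0, fun q => ?_⟩
        fin_cases q
        · show (0 : ℂ[X]).eval (a k) = _
          rw [eval_zero, zero_mul]
        · show τ.eval (a k) = _
          rw [hτe k hk, zero_mul]
        · show (0 : ℂ[X]).eval (a k) = _
          rw [eval_zero, zero_mul]
    obtain ⟨ρ, hρd, hρ⟩ := hT _ _ hz0
    obtain ⟨ρ', hρd', hρ'⟩ := hT _ _ hz1
    have hρ2 : ρ 2 = 0 := by
      have h := hρd 2
      have e1 : K.card + 1 - g 2 = 0 := by omega
      rw [e1] at h
      exact eq_zero_of_mem_zero h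
    have hρ2' : ρ' 2 = 0 := by
      have h := hρd' 2
      have e1 : K.card + δ + 1 - g 2 = 0 := by omega
      rw [e1] at h
      exact eq_zero_of_mem_zero h
    have a0 : τ = ρ 0 * F 0 0 + ρ 1 * F 1 0 := by
      have h := hρ 0
      rw [hρ2, zero_mul, add_zero] at h
      exact h
    have a1 : (0 : ℂ[X]) = ρ 0 * F 0 1 + ρ 1 * F 1 1 := by
      have h := hρ 1
      rw [hρ2, zero_mul, add_zero] at h
      exact h
    have a2 : (0 : ℂ[X]) = ρ 0 * F 0 2 + ρ 1 * F 1 2 := by
      have h := hρ 2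
      rw [hρ2, zero_mul, add_zero] at h
      exact h
    have b0 : (0 : ℂ[X]) = ρ' 0 * F 0 0 + ρ' 1 * F 1 0 := by
      have h := hρ' 0
      rw [hρ2', zero_mul, add_zero] at h
      exact h
    have b1 : τ = ρ' 0 * F 0 1 + ρ' 1 * F 1 1 := by
      have h := hρ' 1
      rw [hρ2', zero_mul, add_zero] at h
      exact h
    have b2 : (0 : ℂ[X]) = ρ' 0 * F 0 2 + ρ' 1 * F 1 2 := by
      have h := hρ' 2
      rw [hρ2', zero_mul, add_zero] at h
      exact h
    set E : ℂ[X] := ρ 0 * ρ' 1 - ρ 1 * ρ' 0 with hE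
    set D : ℂ[X] := F 0 0 * F 1 1 - F 0 1 * F 1 0 with hD
    have hED : E * D = τ ^ 2 := by
      have : E * D = (ρ 0 * F 0 0 + ρ 1 * F 1 0) * (ρ' 0 * F 0 1 + ρ' 1 * F 1 1)
          - (ρ 0 * F 0 1 + ρ 1 * F 1 1) * (ρ' 0 * F 0 0 + ρ' 1 * F 1 0) := by
        rw [hE, hD]; ring
      rw [this, ← a0, ← a1, ← b0, ← b1]; ring
    have hED0 : E * D ≠ 0 := by rw [hED]; exact pow_ne_zero 2 hτ0
    have hE0 : E ≠ 0 := fun h => hED0 (by rw [h, zero_mul])
    have hD0 : D ≠ 0 := fun h => hED0 (by rw [h, mul_zero])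
    have hF02 : F 0 2 = 0 := by
      have : E * F 0 2 = 0 := by
        have : E * F 0 2 = ρ' 1 * (ρ 0 * F 0 2 + ρ 1 * F 1 2) - ρ 1 * (ρ' 0 * F 0 2 + ρ' 1 * F 1 2) := by
          rw [hE]; ring
        rw [this, ← a2, ← b2]; ring
      exact (mul_eq_zero.1 this).resolve_left hE0
    have hF12 : F 1 2 = 0 := by
      have : E * F 1 2 = 0 := by
        have : E * F 1 2 = ρ 0 * (ρ' 0 * F 0 2 + ρ' 1 * F 1 2) - ρ' 0 * (ρ 0 * F 0 2 + ρ 1 * F 1 2) := by
          rw [hE]; ring
        rw [this, ← a2, ← b2]; ring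
      exact (mul_eq_zero.1 this).resolve_left hE0
    -- degree of D
    have hDd : D ∈ degreeLT ℂ (g 0 + g 1 + 1 - δ) := by
      rw [hD]
      refine Submodule.sub_mem _ ?_ ?_
      · refine C2_mul ?_ ?_
        · have h := hdg 0 0
          have e1 : g 0 + 1 - ((0 : Fin 3) : ℕ) * δ = g 0 + 1 := by
            show g 0 + 1 - 0 * δ = _
            omega
          rw [e1] at h; exact h
        · have h := hdg 1 1
          have e1 : g 1 + 1 - ((1 : Fin 3) : ℕ) * δ = g 1 + 1 - δ := by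
            show g 1 + 1 - 1 * δ = _
            omega
          rw [e1] at h; exact h
      · rw [mul_comm, add_comm (g 0) (g 1)]
        refine C2_mul ?_ ?_
        · have h := hdg 1 0
          have e1 : g 1 + 1 - ((0 : Fin 3) : ℕ) * δ = g 1 + 1 := by
            show g 1 + 1 - 0 * δ = _
            omega
          rw [e1] at h; exact h
        · have h := hdg 0 1
          have e1 : g 0 + 1 - ((1 : Fin 3) : ℕ) * δ = g 0 + 1 - δ := by
            show g 0 + 1 - 1 * δ = _
            omega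
          rw [e1] at h; exact h
    have hDn := C2_deg hDd hD0
    have hDl : ∑ k ∈ K, (if c k 2 = 0 then 1 else 2) ≤ D.natDegree := by
      refine C2_dvd a K ha (fun k => if c k 2 = 0 then 1 else 2) D hD0 ?_
      intro k hk
      obtain ⟨s0, hs0⟩ := hev 0 k hk
      obtain ⟨s1, hs1⟩ := hev 1 k hk
      show (X - C (a k)) ^ (if c k 2 = 0 then 1 else 2) ∣ D
      by_cases hk2 : c k 2 = 0
      · rw [if_pos hk2, pow_one]
        apply dvd_iff_isRoot.2
        rw [IsRoot, hD, eval_sub, eval_mul, eval_mul, hs0, hs1, hs0, hs1]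
        ring
      · rw [if_neg hk2]
        have z0 : s0 = 0 := by
          have h := hs0 2
          rw [hF02, eval_zero] at h
          exact (mul_eq_zero.1 h.symm).resolve_right hk2
        have z1 : s1 = 0 := by
          have h := hs1 2
          rw [hF12, eval_zero] at h
          exact (mul_eq_zero.1 h.symm).resolve_right hk2
        have e0 : ∀ q, (F 0 q).eval (a k) = 0 := fun q => by rw [hs0, z0, zero_mul]
        have e1 : ∀ q, (F 1 q).eval (a k) = 0 := fun q => by rw [hs1, z1, zero_mul]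
        obtain ⟨Q00, hQ00⟩ := C2_ev (e0 0)
        obtain ⟨Q01, hQ01⟩ := C2_ev (e0 1)
        obtain ⟨Q10, hQ10⟩ := C2_ev (e1 0)
        obtain ⟨Q11, hQ11⟩ := C2_ev (e1 1)
        refine ⟨Q00 * Q11 - Q01 * Q10, ?_⟩
        rw [hD, hQ00, hQ01, hQ10, hQ11]
        ring
    have hcnt : ∑ k ∈ K, (if c k 2 = 0 then 1 else 2) + (K.filter fun k => c k 2 = 0).card = 2 * K.card := by
      rw [card_filter, ← sum_add_distrib, card_eq_sum_ones, mul_sum]
      refine sum_congr rfl fun k _ => ?_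
      by_cases h : c k 2 = 0
      · rw [if_pos h, if_pos h]; rfl
      · rw [if_neg h, if_neg h]; rfl
    omega

end Pool.Agent.helper87.TR
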